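import Mathlib

set_option autoImplicit false

namespace Pool.Agent.Results.MP_79deac_al.Counter

open Set Topology Filter Pointwise
open Cardinal hiding univ

@[reducible] def zar (G : Type) [AddCommGroup G] : TopologicalSpace G :=
  TopologicalSpace.generateFrom {U | ∃ (n : ℤ) (g : G), U = {x | n • x = g}ᶜ}

noncomputable def κ : ℕ → Cardinal.{0}
  | 0 => ℵ₀
  | n + 1 => 2 ^ κ n

lemma κ_mono : StrictMono κ := strictMono_nat_of_lt_succ fun _ => cantor _

lemma κ_inf (n : ℕ) : ℵ₀ ≤ κ n := κ_mono.monotone n.zero_le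

def T (n : ℕ) : Type := (κ n).out

lemma mk_T (n : ℕ) : #(T n) = κ n := mk_out _

abbrev I : Type := Σ n, T n

abbrev G : Type := I →₀ ZMod 2

lemma lt_I (n : ℕ) : κ n < #I :=
  (κ_mono n.lt_succ_self).trans_le ((mk_T _).ge.trans
    (mk_le_of_injective (sigma_mk_injective (β := T) (i := n + 1))))

instance : Infinite I := infinite_iff.2 (lt_I 0).le

lemma card_G : #G = #I := by
  rw [mk_finsupp_of_infinite, max_eq_left ((mk_le_aleph0).trans (aleph0_le_mk I))]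

lemma cover : ∃ A : ℕ → Set G, Monotone A ∧ (∀ n, #(A n) ≤ κ n) ∧ ∀ g, ∃ n, g ∈ A n := by
  obtain ⟨e⟩ := Cardinal.eq.1 card_G
  have h : ∀ n, #(e ⁻¹' range (Sigma.mk n)) ≤ κ n := fun n =>
    (mk_preimage_of_injective _ _ e.injective).trans (mk_range_le.trans (mk_T _).le)
  refine ⟨fun n => ⋃ j ∈ Finset.range (n + 1), e ⁻¹' range (Sigma.mk j), fun m n h =>
    biUnion_subset_biUnion_left (Finset.range_mono (by omega)), fun n => ?_, fun g =>
    ⟨(e g).1, mem_iUnion₂.2 ⟨_, Finset.self_mem_range_succ _, (e g).2, rfl⟩⟩⟩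
  beta_reduce
  induction n with
  | zero => simpa only [zero_add, Finset.range_one, Finset.set_biUnion_singleton] using h 0
  | succ n ih =>
    rw [Finset.range_add_one, Finset.set_biUnion_insert]
    exact (mk_union_le _ _).trans (add_le_of_le (κ_inf _) (h _)
      (ih.trans (κ_mono n.lt_succ_self).le))

lemma card_cl {X : Type} [TopologicalSpace X] [T2Space X] (A : Set X) :
    #(closure A) ≤ 2 ^ ((2 : Cardinal) ^ #A) := by
  rw [← mk_set, ← mk_set]
  refine mk_le_of_injective (f := fun x => {s : Set A | x.1 ∈ closure (Subtype.val '' s)})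
    fun x y h => Subtype.ext ?_
  by_contra h1
  obtain ⟨U, V, h2, h3, h4, h5, h6⟩ := t2_separation h1
  have h7 := h.le (show x.1 ∈ closure (Subtype.val '' (Subtype.val ⁻¹' U)) by
    rw [Subtype.image_preimage_coe, inter_comm]; exact h2.inter_closure ⟨h4, x.2⟩)
  obtain ⟨_, h8, z, h9, rfl⟩ := mem_closure_iff.1 h7 V h3 h5
  exact disjoint_left.1 h6 h9 h8

def Ch (W : ℕ → Set G) : Prop := ∀ n, ∀ a ∈ W (n + 1), ∀ b ∈ W (n + 1), a - b ∈ W n

def Far (W : ℕ → Set G) (y : ℕ → G) : Prop := ∀ a, ∃ n, ∀ᶠ k in atTop, y k - a ∉ W n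

lemma esc [TopologicalSpace G] [IsTopologicalAddGroup G] [T2Space G] :
    ∃ W y, (∀ n, W n ∈ 𝓝 0) ∧ Ch W ∧ Far W y := by
  obtain ⟨A, a1, a2, a3⟩ := cover
  have h0 : ∀ U ∈ 𝓝 (0 : G), ∃ V ∈ 𝓝 (0 : G), (∀ a ∈ V, ∀ b ∈ V, a - b ∈ U) ∧
      ∀ a ∈ V, ∀ b ∈ V, a + b ∈ U := fun U hU => by
    obtain ⟨V, h1, h2⟩ := exists_nhds_half_neg hU
    obtain ⟨W, h3, h4⟩ := exists_nhds_zero_half hU
    exact ⟨_, inter_mem h1 h3, fun a ha b hb => h2 a ha.1 b hb.1, fun a ha b hb => h4 a ha.2 b hb.2⟩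
  by_cases h : ∃ U ∈ 𝓝 (0 : G), ∃ m, #U ≤ κ m
  · obtain ⟨U, h1, m, h2⟩ := h
    choose V h3 h4 using fun U : (𝓝 (0 : G)).sets => h0 U U.2
    let W : ℕ → (𝓝 (0 : G)).sets := fun n => (fun U => ⟨V U, h3 U⟩)^[n] ⟨U, h1⟩
    have h5 : ∀ k, ∃ y, y ∉ A k + U := fun k => by
      by_contra h5
      push Not at h5
      refine (lt_I (max k m)).not_ge (card_G.ge.trans (mk_univ.ge.trans ?_))
      rw [← eq_univ_of_forall h5]
      exact mk_add_le.trans (mul_le_of_le (κ_inf _) ((a2 k).trans (κ_mono.monotone (le_max_left _ _)))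
        (h2.trans (κ_mono.monotone (le_max_right _ _))))
    choose y hy using h5
    refine ⟨fun n => W n, y, fun n => (W n).2, fun n => ?_, fun a => ⟨0, ?_⟩⟩
    · simp only [W, Function.iterate_succ_apply']
      exact (h4 _).1
    · obtain ⟨n, hn⟩ := a3 a
      exact (eventually_ge_atTop n).mono fun k hk h => hy k ⟨a, a1 hk hn, _, h, add_sub_cancel _ _⟩
  push Not at h
  have h1 : ∀ (n : ℕ) (s : G × (𝓝 (0 : G)).sets), ∃ t : G × (𝓝 (0 : G)).sets,
      (∀ a ∈ t.2.1, ∀ b ∈ t.2.1, a - b ∈ s.2.1) ∧ (∀ a ∈ t.2.1, t.1 - s.1 + a ∈ s.2.1) ∧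
      ∀ a ∈ t.2.1, ∀ b ∈ t.2.1, t.1 + (a - b) ∉ A n := by
    rintro n ⟨y, W, hW⟩
    obtain ⟨V, h1, h2, h3⟩ := h0 W hW
    obtain ⟨v, h4, h5⟩ : ∃ v ∈ V, y + v ∉ closure (A n) := by
      by_contra h4
      push Not at h4
      refine (h V h1 (n + 2)).not_ge ((mk_le_of_injective (f := fun v : V =>
        (⟨y + v, h4 v v.2⟩ : closure (A n))) fun v w h => Subtype.ext (by simpa using h)).trans ?_)
      exact (card_cl _).trans (power_le_power_left two_ne_zero (power_le_power_left two_ne_zero (a2 n)))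
    obtain ⟨V', h6, h7, -⟩ := h0 _ ((continuous_const_add (y + v)).continuousAt.preimage_mem_nhds
      (isClosed_closure.isOpen_compl.mem_nhds (by simpa using h5)))
    exact ⟨(y + v, ⟨_, inter_mem h1 h6⟩), fun a ha b hb => h2 a ha.1 b hb.1, fun a ha => by
      simpa using h3 v h4 a ha.1, fun a ha b hb h => h7 a ha.2 b hb.2 (subset_closure h)⟩
  choose f b1 b2 b3 using h1
  let s : ℕ → G × (𝓝 (0 : G)).sets := fun n => Nat.rec (0, ⟨univ, univ_mem⟩) f n
  have b4 : ∀ n k, n ≤ k → ∀ a ∈ (s k).2.1, (s k).1 - (s n).1 + a ∈ (s n).2.1 := by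
    intro n k hk
    induction k, hk using Nat.le_induction with
    | base => simp
    | succ k _ ih =>
      intro a ha
      convert ih _ (b2 k (s k) a ha) using 1
      change (f k (s k)).1 - _ + _ = _
      abel
  refine ⟨fun n => (s n).2, fun n => (s n).1, fun n => (s n).2.2, fun n => b1 n (s n), fun a => ?_⟩
  obtain ⟨n, hn⟩ := a3 a
  refine ⟨n + 1, (eventually_ge_atTop (n + 1)).mono fun k hk h => ?_⟩
  refine b3 n (s n) _ (b4 _ k hk 0 (mem_of_mem_nhds (s k).2.2)) _ h ?_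
  convert hn using 1
  change (s (n + 1)).1 + _ = _
  abel

lemma sub {W : ℕ → Set G} (h0 : ∀ n, 0 ∈ W n) (h : Ch W) {y : ℕ → G} (hy : ¬ Far W y) :
    ∃ (a : G) (φ : ℕ → ℕ), StrictMono φ ∧ ∀ n, ∀ᶠ k in atTop, y (φ k) - a ∈ W n := by
  simp only [Far, not_forall, not_exists, not_eventually, not_not] at hy
  obtain ⟨a, ha⟩ := hy
  obtain ⟨φ, h1, h2⟩ := extraction_forall_of_frequently ha
  have h3 : Antitone W := antitone_nat_of_succ_le fun n a ha => by simpa using h n a ha 0 (h0 _)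
  exact ⟨a, φ, h1, fun n => (eventually_ge_atTop n).mono fun k hk => h3 hk (h2 k)⟩

lemma far_add {W : ℕ → Set G} (h : Ch W) {y z : ℕ → G} (hy : Far W y) {b : G}
    (hz : ∀ n, ∀ᶠ k in atTop, z k - b ∈ W n) : Far W (y + z) := fun c => by
  obtain ⟨n, hn⟩ := hy (c - b)
  refine ⟨n + 1, (hn.and (hz (n + 1))).mono fun k hk h1 => hk.1 ?_⟩
  convert h n _ h1 _ hk.2 using 1
  simp only [Pi.add_apply]
  abel

lemma far_cl [TopologicalSpace G] [IsTopologicalAddGroup G] [T2Space G] {W : ℕ → Set G}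
    (h0 : ∀ n, W n ∈ 𝓝 0) {x : ℕ → G} (hx : Far W x) : IsOpen (range x)ᶜ ∧ (range x).Infinite := by
  refine ⟨isOpen_iff_mem_nhds.2 fun a ha => ?_, fun h => ?_⟩
  · obtain ⟨n, hn⟩ := hx a
    obtain ⟨N, hN⟩ := eventually_atTop.1 hn
    refine mem_of_superset (inter_mem ((continuous_sub_right a).continuousAt.preimage_mem_nhds
      (by simpa using h0 n)) (((finite_Iio N).image x).isClosed.isOpen_compl.mem_nhds
        fun h => ha (image_subset_range _ _ h))) ?_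
    rintro _ ⟨h1, h2⟩ ⟨k, rfl⟩
    exact (lt_or_ge k N).elim (fun h => h2 ⟨k, h, rfl⟩) fun h => hN k h h1
  · refine infinite_univ (α := ℕ) ((h.biUnion fun a _ => show {k | x k = a}.Finite from ?_).subset
      fun k _ => mem_iUnion₂.2 ⟨_, ⟨k, rfl⟩, rfl⟩)
    obtain ⟨n, hn⟩ := hx a
    rw [← Nat.cofinite_eq_atTop] at hn
    exact (eventually_cofinite.1 hn).subset fun k hk => by
      simpa [show x k = a from hk] using mem_of_mem_nhds (h0 n)

theorem result : ∃ (G : Type) (_ : AddCommGroup G), Uncountable G ∧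
    (∀ s, IsOpen[zar G] s ↔ s.Nonempty → sᶜ.Finite) ∧
    ∀ τ₁ τ₂ : TopologicalSpace G, @IsTopologicalAddGroup G τ₁ _ → @T2Space G τ₁ →
      @IsTopologicalAddGroup G τ₂ _ → @T2Space G τ₂ →
        ∃ s, IsOpen[τ₁] s ∧ IsOpen[τ₂] s ∧ s.Nonempty ∧ sᶜ.Infinite := by
  have : Uncountable G := aleph0_lt_mk_iff.1 ((lt_I 0).trans_le card_G.ge)
  refine ⟨G, inferInstance, this, fun s => ⟨fun h => ?_, fun h => ?_⟩, fun τ₁ τ₂ h1 h2 h3 h4 => ?_⟩
  · induction h with
    | basic s h =>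
      obtain ⟨n, g, rfl⟩ := h
      rintro ⟨x, hx⟩
      rw [compl_compl]
      refine Set.Subsingleton.finite fun y hy z hz => ?_
      simp only [mem_compl_iff, mem_ofPred_eq, ← Int.cast_smul_eq_zsmul (ZMod 2)] at hx hy hz
      rcases (by decide : ∀ c : ZMod 2, c = 0 ∨ c = 1) n with h | h <;> simp_all
    | univ => simp
    | inter s t _ _ h1 h2 =>
      intro h
      rw [compl_inter]
      exact (h1 (h.mono inter_subset_left)).union (h2 (h.mono inter_subset_right))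
    | sUnion S _ h => exact fun ⟨x, s, h1, h2⟩ =>
        (h s h1 ⟨x, h2⟩).subset (compl_subset_compl.2 (subset_sUnion_of_mem h1))
  · let _ := zar G
    have : T1Space G := ⟨fun g => ⟨TopologicalSpace.isOpen_generateFrom_of_mem ⟨1, g, by simp⟩⟩⟩
    rcases s.eq_empty_or_nonempty with rfl | h1
    · exact isOpen_empty
    · exact isClosed_compl_iff.1 (h h1).isClosed
  · obtain ⟨W, y, a1, a2, a3⟩ := @esc τ₁ h1 h2
    obtain ⟨V, z, b1, b2, b3⟩ := @esc τ₂ h3 h4
    obtain ⟨x, c1, c2⟩ : ∃ x, Far W x ∧ Far V x := by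
      by_contra h
      push Not at h
      obtain ⟨a, φ, h5, h6⟩ := sub (fun n => @mem_of_mem_nhds _ τ₂ _ _ (b1 n)) b2 (h y a3)
      obtain ⟨b, ψ, h7, h8⟩ := sub (fun n => @mem_of_mem_nhds _ τ₁ _ _ (a1 n)) a2 fun h' => h z h' b3
      refine h (y ∘ φ + z ∘ ψ) (far_add a2 (fun c => (a3 c).imp fun n => h5.tendsto_atTop.eventually) h8) ?_
      rw [add_comm]
      exact far_add b2 (fun c => (b3 c).imp fun n => h7.tendsto_atTop.eventually) h6
    refine ⟨_, (@far_cl τ₁ h1 h2 _ a1 _ c1).1, (@far_cl τ₂ h3 h4 _ b1 _ c2).1,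
      nonempty_compl.2 fun h => not_countable_univ (h ▸ countable_range x), ?_⟩
    rw [compl_compl]
    exact (@far_cl τ₁ h1 h2 _ a1 _ c1).2

end Pool.Agent.Results.MP_79deac_al.Counter
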